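import Pool.Agent.H437Z.CT.Truth

namespace Pool.Agent.Results.MP_f36693_lc.ANegative

open Pool.Agent.H437Z.CT

/-- There is a set `D` of natural numbers which is Turing reducible to the set `0^(ω)` and such that
no complete theory in a computable signature which has a computable model (in particular, no such
countably categorical theory) has the Turing degree of `D`. -/
theorem result : ∃ D : Set ℕ, TuringReducible (chi D) (chi zeroOmega) ∧
    ∀ σ : Signature, σ.IsComputable → ∀ T : σ.lang.Theory, T.IsComplete →
      HasComputableModel T → ¬ TuringEquivalent (chi (codes T)) (chi D) :=
  main

end Pool.Agent.Results.MP_f36693_lc.ANegative
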